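import Pool.Agent.Helper79.PN.Lem

set_option autoImplicit false

/-!
Module RES of the project PN: the spectral gap.
-/

open scoped Classical

namespace Pool.Agent.Helper45.PN

open Pool.Agent.Helper79.PN

private theorem res_ex (θ : ℂ) (φ : Vert θ → ℝ) (v : Vert θ) : ex θ φ v.1 = φ v := by
  unfold ex
  rw [dif_pos v.2]

private theorem res_sum (θ : ℂ) (F : Lam → ℝ) (hF : ∀ K, ¬ Acc θ K → F K = 0) :
    ((Summable fun v : Vert θ => F v.1 ^ 2) ↔ Summable fun K => F K ^ 2) ∧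
      ∑' v : Vert θ, F v.1 ^ 2 = ∑' K, F K ^ 2 := by
  have hi : Function.Injective (fun v : Vert θ => v.1) := Subtype.val_injective
  constructor
  · have h := hi.summable_iff (f := fun K => F K ^ 2) (by
      intro K hK
      have : ¬ Acc θ K := fun h => hK ⟨⟨K, h⟩, rfl⟩
      simp only [hF K this]
      norm_num)
    exact h
  · have h := hi.tsum_eq (f := fun K => F K ^ 2) (by
      intro K hK
      rw [Function.mem_support] at hK
      by_contra hcon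
      have : ¬ Acc θ K := fun h => hcon ⟨⟨K, h⟩, rfl⟩
      simp only [hF K this] at hK
      norm_num at hK)
    exact h

private theorem res_norm (θ : ℂ) (ψ : Hil θ) :
    (Summable fun v : Vert θ => ((ψ : Vert θ → ℂ) v).re ^ 2) ∧
    (Summable fun v : Vert θ => ((ψ : Vert θ → ℂ) v).im ^ 2) ∧
    ‖ψ‖ ^ 2 = ∑' v : Vert θ, ((ψ : Vert θ → ℂ) v).re ^ 2 +
      ∑' v : Vert θ, ((ψ : Vert θ → ℂ) v).im ^ 2 := by
  have h2 : (0 : ℝ) < (2 : ENNReal).toReal := by norm_num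
  have h0 := lp.norm_rpow_eq_tsum h2 ψ
  have h1 : Summable fun v : Vert θ => ‖(ψ : Vert θ → ℂ) v‖ ^ (2 : ENNReal).toReal :=
    (lp.memℓp ψ).summable h2
  have h3 : (2 : ENNReal).toReal = ((2 : ℕ) : ℝ) := by norm_num
  rw [h3] at h0 h1
  simp only [Real.rpow_natCast] at h0 h1
  have h4 : ∀ v : Vert θ, ‖(ψ : Vert θ → ℂ) v‖ ^ 2 =
      ((ψ : Vert θ → ℂ) v).re ^ 2 + ((ψ : Vert θ → ℂ) v).im ^ 2 := by
    intro v
    rw [Complex.sq_norm, Complex.normSq_apply]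
    ring
  simp only [h4] at h0 h1
  have hr : Summable fun v : Vert θ => ((ψ : Vert θ → ℂ) v).re ^ 2 :=
    Summable.of_nonneg_of_le (fun v => sq_nonneg _)
      (fun v => le_add_of_nonneg_right (sq_nonneg _)) h1
  have hm : Summable fun v : Vert θ => ((ψ : Vert θ → ℂ) v).im ^ 2 :=
    Summable.of_nonneg_of_le (fun v => sq_nonneg _)
      (fun v => le_add_of_nonneg_left (sq_nonneg _)) h1
  refine ⟨hr, hm, ?_⟩
  rw [h0, Summable.tsum_add hr hm]

theorem st_RES (h1 : ST_PEN) (h2 : ST_OPX) (h3 : ST_NBX) (h4 : ST_INQ) (h5 : ST_UNI) :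
    ST_RES := by
  intro θ H E hθ hH hE1 hE2
  obtain ⟨P, hn, hh', hV⟩ := h1 θ hθ
  obtain ⟨H0, hH0, hsa, huniq⟩ := h2 θ
  have hHsa : IsSelfAdjoint H := by rw [huniq H hH]; exact hsa
  obtain ⟨C, hC, hINQ⟩ := h4 (-E - 3) (by linarith) (by linarith)
  rw [spectrum.notMem_iff]
  have hind : ∀ K, ind (InV P K) = ind (Acc θ K) := by
    intro K
    by_cases h : Acc θ K
    · rw [ind_true h, ind_true ((hV K).2 h)]
    · rw [ind_false h, ind_false (fun h' => h ((hV K).1 h'))]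
  have hTsa : IsSelfAdjoint (algebraMap ℂ (Hil θ →L[ℂ] Hil θ) (E : ℂ) - H) := by
    refine IsSelfAdjoint.sub ?_ hHsa
    refine IsSelfAdjoint.algebraMap _ ?_
    exact Complex.conj_ofReal E
  have hdg : ∀ v : Vert θ, ((nbV θ v).card : ℝ) = dg P v.1 := by
    intro v
    rw [(h3 θ v).2.1]
    unfold dg
    congr 1
    funext K
    exact (hind K).symm
  -- the values of `T ψ`
  have hT : ∀ (ψ : Hil θ) (v : Vert θ),
      (((algebraMap ℂ (Hil θ →L[ℂ] Hil θ) (E : ℂ) - H) ψ : Hil θ) : Vert θ → ℂ) v =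
        (E : ℂ) * (ψ : Vert θ → ℂ) v - (∑ w ∈ nbV θ v, (ψ : Vert θ → ℂ) w -
          ((nbV θ v).card : ℂ) * (ψ : Vert θ → ℂ) v) := by
    intro ψ v
    have e1 : (algebraMap ℂ (Hil θ →L[ℂ] Hil θ) (E : ℂ)) ψ = (E : ℂ) • ψ := by
      rw [Algebra.algebraMap_eq_smul_one]
      rfl
    rw [sub_apply, lp.coeFn_sub, Pi.sub_apply, hH ψ v, e1, lp.coeFn_smul, Pi.smul_apply,
      smul_eq_mul, Finset.sum_sub_distrib, Finset.sum_const, nsmul_eq_mul]
  have key : ∀ (φ : Vert θ → ℝ) (v : Vert θ), uu P (-E - 3) (ex θ φ) v.1 =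
      E * φ v - (∑ w ∈ nbV θ v, φ w - ((nbV θ v).card : ℝ) * φ v) := by
    intro φ v
    unfold uu
    rw [ind_true ((hV v.1).2 v.2), res_ex, ← (h3 θ v).1 φ, ← hdg v]
    ring
  have huu : ∀ (φ : Vert θ → ℝ) (K : Lam), ¬ Acc θ K → uu P (-E - 3) (ex θ φ) K = 0 := by
    intro φ K hK
    unfold uu
    rw [ind_false (fun h => hK ((hV K).1 h)), zero_mul]
  have hexz : ∀ (φ : Vert θ → ℝ) (K : Lam), ¬ Acc θ K → ex θ φ K = 0 := by
    intro φ K hK
    unfold ex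
    rw [dif_neg hK]
  have hin : ∀ φ : Vert θ → ℝ, (Summable fun v => φ v ^ 2) →
      ∑' v, φ v ^ 2 ≤ C * ∑' v : Vert θ, (uu P (-E - 3) (ex θ φ) v.1) ^ 2 := by
    intro φ hφ
    have a1 := res_sum θ (ex θ φ) (hexz φ)
    have a2 := res_sum θ (uu P (-E - 3) (ex θ φ)) (huu φ)
    simp only [res_ex] at a1
    have a3 := hINQ P (ex θ φ) (a1.1.1 hφ) (fun K hK => hexz φ K (fun h => hK ((hV K).2 h)))
    rw [a1.2, a2.2]
    exact a3
  have hbd : ∀ ψ : Hil θ, ‖ψ‖ ^ 2 ≤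
      C * ‖(algebraMap ℂ (Hil θ →L[ℂ] Hil θ) (E : ℂ) - H) ψ‖ ^ 2 := by
    intro ψ
    obtain ⟨r1, m1, n1⟩ := res_norm θ ψ
    obtain ⟨r2, m2, n2⟩ := res_norm θ ((algebraMap ℂ (Hil θ →L[ℂ] Hil θ) (E : ℂ) - H) ψ)
    have b1 := hin (fun v => ((ψ : Vert θ → ℂ) v).re) r1
    have b2 := hin (fun v => ((ψ : Vert θ → ℂ) v).im) m1
    have c1 : ∀ v : Vert θ, uu P (-E - 3) (ex θ (fun v => ((ψ : Vert θ → ℂ) v).re)) v.1 =
        ((((algebraMap ℂ (Hil θ →L[ℂ] Hil θ) (E : ℂ) - H) ψ : Hil θ) : Vert θ → ℂ) v).re := by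
      intro v
      rw [key, hT]
      simp [Complex.sub_re, Complex.mul_re, Complex.re_sum]
    have c2 : ∀ v : Vert θ, uu P (-E - 3) (ex θ (fun v => ((ψ : Vert θ → ℂ) v).im)) v.1 =
        ((((algebraMap ℂ (Hil θ →L[ℂ] Hil θ) (E : ℂ) - H) ψ : Hil θ) : Vert θ → ℂ) v).im := by
      intro v
      rw [key, hT]
      simp [Complex.sub_im, Complex.mul_im, Complex.im_sum]
    simp only [c1] at b1
    simp only [c2] at b2
    rw [n1, n2, mul_add]
    exact add_le_add b1 b2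
  have hsC : 0 < √C := Real.sqrt_pos.2 hC
  refine h5 (Hil θ) _ (√C)⁻¹ hTsa (inv_pos.2 hsC) ?_
  intro ψ
  rw [inv_mul_le_iff₀ hsC]
  have h6 := hbd ψ
  have h7 : √C ^ 2 = C := Real.sq_sqrt hC.le
  rw [← h7, ← mul_pow] at h6
  exact (pow_le_pow_iff_left₀ (norm_nonneg _) (by positivity) (by norm_num)).1 h6

end Pool.Agent.Helper45.PN
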